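import Mathlib
import Pool.Agent.H23.Hru3

set_option autoImplicit false

open Set Filter Topology

namespace Pool.Agent.Results.MP_94c136_al.NotCompact

/-- The topology of pointwise convergence on `S_∞`. -/
instance pw : TopologicalSpace (Equiv.Perm ℕ) :=
  TopologicalSpace.induced (fun g : Equiv.Perm ℕ => (g : ℕ → ℕ)) Pi.topologicalSpace

/-- A closed subgroup of `S_∞` with finitely many orbits on `ω^n` for every `n ≥ 1`. -/
def Oligomorphic (G : Subgroup (Equiv.Perm ℕ)) : Prop :=
  IsClosed (G : Set (Equiv.Perm ℕ)) ∧ ∀ n : ℕ, 1 ≤ n → ∃ F : Finset (Fin n → ℕ),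
    ∀ x : Fin n → ℕ, ∃ y ∈ F, ∃ g ∈ G, ∀ i, g (x i) = y i

section
variable (G : Type) [Group G] [TopologicalSpace G]

/-- `Aut(G)`: the group automorphisms that are homeomorphisms. -/
def AutT : Subgroup (MulAut G) where
  carrier := {α | Continuous α ∧ Continuous α.symm}
  mul_mem' := fun a b => ⟨a.1.comp b.1, b.2.comp a.2⟩
  one_mem' := ⟨continuous_id, continuous_id⟩
  inv_mem' := fun a => ⟨a.2, a.1⟩

/-- Left cosets of open subgroups. -/
def OpenCoset : Type :=
  {C : Set G // ∃ (U : Subgroup G) (g : G), IsOpen (U : Set G) ∧ C = (fun u => g * u) '' U}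

/-- Pointwise convergence of the action `α · C = α '' C` on the (discrete) set of open cosets. -/
instance autTop : TopologicalSpace (AutT G) :=
  TopologicalSpace.induced (fun (α : AutT G) (C : OpenCoset G) => α.1 '' C.1)
    (@Pi.topologicalSpace _ _ fun _ => ⊥)

/-- `Inn(G)`, the inner automorphisms, as a subgroup of `Aut(G)`. -/
def Inn : Subgroup (AutT G) := (MulAut.conj (G := G)).range.subgroupOf (AutT G)

/-- `Out(G) = Aut(G) / Inn(G)` with the quotient topology. -/
abbrev Out : Type := AutT G ⧸ Inn G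

theorem finite_classes [CompactSpace (Out G)] (C : OpenCoset G) :
    (range fun α : AutT G => {S | ∃ g : G, S = MulAut.conj g '' (α.1 '' C.1)}).Finite := by
  letI : TopologicalSpace (Set G) := ⊥
  letI : TopologicalSpace (Set (Set G)) := ⊥
  have : DiscreteTopology (Set G) := ⟨rfl⟩
  have : DiscreteTopology (Set (Set G)) := ⟨rfl⟩
  set Φ := fun α : AutT G => {S | ∃ g : G, S = MulAut.conj g '' (α.1 '' C.1)} with hΦ
  have c1 : Continuous fun α : AutT G => α.1 '' C.1 :=
    (continuous_apply C).comp (continuous_induced_dom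
      (f := fun (α : AutT G) (C : OpenCoset G) => α.1 '' C.1))
  have c2 : Continuous Φ := (continuous_of_discreteTopology
    (f := fun T : Set G => {S | ∃ g : G, S = MulAut.conj g '' T})).comp c1
  have wd : ∀ α β : AutT G, (QuotientGroup.leftRel (Inn G)) α β → Φ α = Φ β := by
    intro α β h
    obtain ⟨h, hh⟩ := QuotientGroup.leftRel_apply.1 h
    have e : ∀ x, β.1 x = MulAut.conj (α.1 h) (α.1 x) := fun x => by
      have := congrArg (fun γ : MulAut G => α.1 (γ x)) hh
      simpa using this.symm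
    have e' : β.1 '' C.1 = MulAut.conj (α.1 h) '' (α.1 '' C.1) := by
      rw [image_image]; exact image_congr fun x _ => e x
    ext S
    simp only [hΦ, mem_ofPred_eq, e']
    constructor
    · rintro ⟨g, rfl⟩
      refine ⟨g * (α.1 h)⁻¹, ?_⟩
      rw [image_image (MulAut.conj _) (MulAut.conj _)]
      exact image_congr fun x _ => by simp [mul_assoc]
    · rintro ⟨g, rfl⟩
      refine ⟨g * α.1 h, ?_⟩
      rw [image_image (MulAut.conj _) (MulAut.conj _)]
      exact image_congr fun x _ => by simp [mul_assoc]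
  have c3 : Continuous (Quotient.lift Φ wd : Out G → _) := c2.quotient_lift wd
  refine ((isCompact_range c3).finite_of_discrete).subset ?_
  rintro _ ⟨α, rfl⟩
  exact ⟨(α : Out G), rfl⟩

end

open Pool.Agent.H23.Hru

def Γ : Subgroup (Equiv.Perm V) where
  carrier := {g | Au 0 g}
  mul_mem' := fun a b => by simpa using Au.mul a b
  one_mem' := ⟨fun _ _ => Iff.rfl, fun _ => by simp⟩
  inv_mem' := fun a => by simpa using Au.inv a

theorem ex_e : Nonempty (ℕ ≃ {x : V // lev x = 0}) := by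
  have : Infinite {x : V // lev x = 0} := lev0_inf.to_subtype
  exact nonempty_equiv_of_countable

noncomputable def e : ℕ ≃ {x : V // lev x = 0} := ex_e.some

noncomputable def res0 (g : Γ) : Equiv.Perm ℕ :=
  e.symm.permCongr (g.1.subtypePerm fun x => by rw [g.2.2, add_zero])

theorem res0_ap (g : Γ) (n : ℕ) : (e (res0 g n)).1 = g.1 (e n) := by simp [res0]

theorem e_inj {m n : ℕ} (h : (e m).1 = e n) : m = n := e.injective (Subtype.ext h)

noncomputable def res : Γ →* Equiv.Perm ℕ :=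
  MonoidHom.mk' res0 fun g h => Equiv.ext fun n => e_inj (by
    simp only [Equiv.Perm.mul_apply, res0_ap, Subgroup.coe_mul])

theorem res_ap (g : Γ) (n : ℕ) : (e (res g n)).1 = g.1 (e n) := res0_ap g n

theorem det (y : V) : ∃ F : Finset ℕ, ∀ g h : Γ, (∀ n ∈ F, res g n = res h n) → g.1 y = h.1 y := by
  classical
  obtain ⟨F, a, b⟩ := determ y
  refine ⟨F.attach.image fun x => e.symm ⟨x.1, a _ x.2⟩, fun g h H => b _ _ g.2 h.2 fun x hx => ?_⟩
  have := congrArg (fun n => (e n).1) (H _ (Finset.mem_image_of_mem _ (Finset.mem_attach _ ⟨x, hx⟩)))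
  simpa [res_ap] using this

theorem res_inj : Function.Injective res := fun g h H => Subtype.ext (Equiv.ext fun y => by
  obtain ⟨F, hF⟩ := det y
  exact hF g h fun n _ => by rw [H])

theorem ev_nhds (p : Equiv.Perm ℕ) (F : Finset ℕ) : ∀ᶠ q in 𝓝 p, ∀ n ∈ F, q n = p n :=
  (eventually_all_finset F).2 fun n _ =>
    (((continuous_apply n).comp (continuous_induced_dom
      (f := fun g : Equiv.Perm ℕ => (g : ℕ → ℕ)))).tendsto p).eventually
    (show ∀ᶠ m in 𝓝 (p n), m = p n by simp)

def Ap (p : Equiv.Perm ℕ) : Prop := ∀ F : Finset ℕ, ∃ g : Γ, ∀ n ∈ F, res g n = p n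

theorem Ap.lim {p : Equiv.Perm ℕ} (h : Ap p) : ∃ f : V → V, ∀ y, ∃ F : Finset ℕ, ∀ g : Γ,
    (∀ n ∈ F, res g n = p n) → g.1 y = f y := by
  choose F hF using det
  choose g hg using h
  exact ⟨fun y => (g (F y)).1 y, fun y => ⟨F y, fun k hk => hF y _ _ fun n hn => by
    rw [hk n hn, hg _ n hn]⟩⟩

theorem inv_ag {p : Equiv.Perm ℕ} {g : Γ} {n : ℕ} (h : res g (p⁻¹ n) = p (p⁻¹ n)) :
    res g⁻¹ n = p⁻¹ n := by
  rw [map_inv, Equiv.Perm.inv_eq_iff_eq, h]; simp

theorem Ap.inv {p : Equiv.Perm ℕ} (h : Ap p) : Ap p⁻¹ := fun F => by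
  classical
  obtain ⟨g, hg⟩ := h (F.image (p⁻¹ : Equiv.Perm ℕ))
  exact ⟨g⁻¹, fun n hn => inv_ag (hg _ (Finset.mem_image_of_mem _ hn))⟩

theorem Ap.mem {p : Equiv.Perm ℕ} (h : Ap p) : p ∈ res.range := by
  classical
  obtain ⟨f, hf⟩ := h.lim
  obtain ⟨f', hf'⟩ := h.inv.lim
  choose F hF using hf
  choose F' hF' using hf'
  have two : ∀ x y n, ∃ g : Γ, g.1 x = f x ∧ g.1 y = f y ∧ res g n = p n := fun x y n => by
    obtain ⟨g, hg⟩ := h (insert n (F x ∪ F y))
    exact ⟨g, hF x g fun n hn => hg n (by simp [hn]), hF y g fun n hn => hg n (by simp [hn]),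
      hg n (by simp)⟩
  have bij : Function.Bijective f := by
    refine ⟨fun x y H => ?_, fun y => ⟨f' y, ?_⟩⟩
    · obtain ⟨g, a, b, -⟩ := two x y 0
      exact g.1.injective (a.trans (H.trans b.symm))
    · obtain ⟨g, hg⟩ := h (F (f' y) ∪ (F' y).image (p⁻¹ : Equiv.Perm ℕ))
      rw [← hF _ g fun n hn => hg n (Finset.mem_union_left _ hn),
        ← hF' y g⁻¹ fun n hn => inv_ag (hg _ (Finset.mem_union_right _
          (Finset.mem_image_of_mem _ hn)))]
      simp
  refine ⟨⟨Equiv.ofBijective f bij, fun x y => ?_, fun x => ?_⟩, Equiv.ext fun n => e_inj ?_⟩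
  · obtain ⟨g, a, b, -⟩ := two x y 0
    simp only [Equiv.ofBijective_apply, ← a, ← b]
    exact g.2.1 x y
  · obtain ⟨g, a, -⟩ := two x x 0
    simp only [Equiv.ofBijective_apply, ← a]
    exact g.2.2 x
  · obtain ⟨g, a, -, b⟩ := two (e n) (e n) n
    rw [res_ap, ← b, res_ap, a]
    rfl

theorem olig_G : Oligomorphic res.range := by
  classical
  refine ⟨isClosed_of_closure_subset fun p hp => Ap.mem fun F => ?_, fun n hn => ?_⟩
  · obtain ⟨q, a, g, rfl⟩ := mem_closure_iff_nhds.1 hp _ (ev_nhds p F)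
    exact ⟨g, a⟩
  · obtain ⟨Cd, _, has, h1, h2⟩ := olig n hn
    have : ∀ c : Cd, ∃ y : Fin n → ℕ, (∃ x : Fin n → ℕ, has (fun i => e (x i)) c) →
        has (fun i => e (y i)) c := fun c => by
      by_cases h : ∃ x : Fin n → ℕ, has (fun i => e (x i)) c
      · exact h.imp fun _ h _ => h
      · exact ⟨0, fun h' => absurd h' h⟩
    choose r hr using this
    refine ⟨(finite_range r).toFinset, fun x => ?_⟩
    obtain ⟨c, hc⟩ := h1 (fun i => e (x i)) fun i => (e (x i)).2
    obtain ⟨g, a, b⟩ := h2 _ _ c hc (hr c ⟨x, hc⟩)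
    exact ⟨r c, by simp, res ⟨g, a⟩, ⟨_, rfl⟩, fun i => e_inj (by rw [res_ap]; exact b i)⟩

def cj {k : ℤ} {σ : Equiv.Perm V} (h : Au k σ) : Γ ≃* Γ where
  toFun g := ⟨σ * g * σ⁻¹, show Au 0 _ by simpa using (h.mul g.2).mul h.inv⟩
  invFun g := ⟨σ⁻¹ * g * σ, show Au 0 _ by simpa using (h.inv.mul g.2).mul h⟩
  left_inv g := Subtype.ext (by simp [mul_assoc])
  right_inv g := Subtype.ext (by simp [mul_assoc])
  map_mul' g h := Subtype.ext (by simp [mul_assoc])

noncomputable def ρ : Γ ≃* res.range := MonoidHom.ofInjective res_inj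

noncomputable def al {k : ℤ} {σ : Equiv.Perm V} (h : Au k σ) : MulAut res.range :=
  ρ.symm.trans ((cj h).trans ρ)

theorem al_ap {k : ℤ} {σ : Equiv.Perm V} (h : Au k σ) (g : Γ) : al h (ρ g) = ρ (cj h g) := by
  simp [al]

theorem al_cont {k : ℤ} {σ : Equiv.Perm V} (h : Au k σ) : Continuous (al h) := by
  refine continuous_induced_rng.2 (continuous_induced_rng.2 (continuous_pi fun n =>
    continuous_iff_continuousAt.2 fun p => tendsto_const_nhds.congr' ?_))
  obtain ⟨F, hF⟩ := det (σ⁻¹ (e n))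
  filter_upwards [(continuous_subtype_val.tendsto p).eventually (ev_nhds p.1 F)] with q hq
  obtain ⟨g, rfl⟩ := ρ.surjective p
  obtain ⟨g', rfl⟩ := ρ.surjective q
  have := hF g' g hq
  simp only [Function.comp_apply, al_ap]
  refine e_inj ((res_ap _ _).trans (Eq.trans ?_ (res_ap _ _).symm))
  exact congrArg σ this.symm

noncomputable def alT {k : ℤ} {σ : Equiv.Perm V} (h : Au k σ) : AutT res.range :=
  ⟨al h, al_cont h, by
    have : (al h).symm = al h.inv := MulEquiv.ext fun p => by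
      obtain ⟨g, rfl⟩ := ρ.surjective p
      rw [MulEquiv.symm_apply_eq, al_ap, al_ap]
      exact congrArg ρ (Subtype.ext (by simp [cj, mul_assoc]))
    rw [this]
    exact al_cont h.inv⟩

def St (x : V) : Set res.range := ρ '' {g | g.1 x = x}

noncomputable def U0 : OpenCoset res.range :=
  ⟨St (e 0), (MulAction.stabilizer (Equiv.Perm ℕ) 0).subgroupOf res.range, 1, by
    refine isOpen_iff_mem_nhds.2 fun p hp => ?_
    filter_upwards [(continuous_subtype_val.tendsto p).eventually (ev_nhds p.1 {0})] with q hq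
    exact (hq 0 (by simp)).trans hp, by
    ext p
    obtain ⟨g, rfl⟩ := ρ.surjective p
    simp only [St, one_mul, image_id', ρ.injective.mem_set_image, mem_ofPred_eq, ← res_ap]
    exact ⟨fun h => e_inj h, fun h => congrArg (fun n => (e n).1) h⟩⟩

theorem al_St {k : ℤ} {σ : Equiv.Perm V} (h : Au k σ) (x : V) : al h '' St x = St (σ x) := by
  ext p
  simp only [St, image_image, al_ap, mem_image, mem_ofPred_eq]
  constructor
  · rintro ⟨g, a, rfl⟩
    exact ⟨_, by simp [cj, a], rfl⟩
  · rintro ⟨g, a, rfl⟩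
    exact ⟨(cj h).symm g, by simp [cj, a], by simp⟩

theorem St_inj {x y : V} (h : St x = St y) : x = y := by
  by_contra hne
  obtain ⟨g, a, b, c⟩ := sep hne
  have : ρ ⟨g, a⟩ ∈ St x := mem_image_of_mem _ b
  rw [h] at this
  exact c (ρ.injective.mem_set_image.1 this)

/-- Q1 fails: some oligomorphic group `G ≤ S_∞` has `Out(G)` not compact, so not profinite. -/
theorem result : ∃ G : Subgroup (Equiv.Perm ℕ), Oligomorphic G ∧ ¬ CompactSpace (Out G) := by
  refine ⟨res.range, olig_G, fun hc => ?_⟩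
  choose σ hσ using exists_shift
  refine infinite_of_injective_forall_mem (f := fun k : ℤ =>
    {S | ∃ g : res.range, S = MulAut.conj g '' ((alT (hσ k)).1 '' U0.1)}) (fun j k H => ?_)
    (fun k => ?_) (finite_classes _ U0)
  swap
  · exact ⟨alT (hσ k), rfl⟩
  have : al (hσ j) '' St (e 0) ∈ {S | ∃ g : res.range,
      S = MulAut.conj g '' ((alT (hσ j)).1 '' U0.1)} := ⟨1, by simp [alT, U0]⟩
  simp only at H
  rw [H] at this
  obtain ⟨g, hg⟩ := this
  obtain ⟨g, rfl⟩ := ρ.surjective g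
  have e1 : MulAut.conj (ρ g) = al g.2 := MulEquiv.ext fun p => by
    obtain ⟨q, rfl⟩ := ρ.surjective p
    rw [al_ap, MulAut.conj_apply, ← map_inv, ← map_mul, ← map_mul]
    rfl
  change _ = _ '' (al _ '' St _) at hg
  rw [e1, al_St, al_St, al_St] at hg
  have := congrArg lev (St_inj hg)
  rw [g.2.2, (hσ j).2, (hσ k).2] at this
  omega

end Pool.Agent.Results.MP_94c136_al.NotCompact
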